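import Mathlib

set_option autoImplicit false

namespace Pool.Agent.Results.MP_8835a9_co.UnboundedExcess

/-- The matrix with rows `(a, -1)` and `(1, 0)`. -/
def elemMat {R : Type*} [CommRing R] (a : R) : Matrix (Fin 2) (Fin 2) R :=
  !![a, -1; 1, 0]

/-- For a tuple `l = (a_1, ..., a_n)`, the matrix
`M_n(a_1, ..., a_n) = elemMat a_n * ... * elemMat a_1` (last factor is `elemMat a_1`). -/
def M {R : Type*} [CommRing R] : List R → Matrix (Fin 2) (Fin 2) R
  | [] => 1
  | a :: l => M l * elemMat a

/-- A tuple of size at least one is a solution of `(E_N)` if its matrix is `Id` or `-Id`. -/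
def IsSolution {N : ℕ} (l : List (ZMod N)) : Prop :=
  1 ≤ l.length ∧ (M l = 1 ∨ M l = -1)

/-- The sum of two tuples of sizes at least two:
`(a_1 + b_m, a_2, ..., a_{n-1}, a_n + b_1, b_2, ..., b_{m-1})`. -/
def oplus {N : ℕ} (a b : List (ZMod N)) : List (ZMod N) :=
  (a.headD 0 + b.getLastD 0) :: (a.tail.dropLast ++
    ((a.getLastD 0 + b.headD 0) :: b.tail.dropLast))

/-- `b` is a cyclic rotation of `a` or of the reversal of `a`. -/
def Equivalent {N : ℕ} (a b : List (ZMod N)) : Prop :=
  List.IsRotated a b ∨ List.IsRotated a.reverse b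

/-- `l` is equivalent to a sum of two solutions, each of size at least three. -/
def IsReducible {N : ℕ} (l : List (ZMod N)) : Prop :=
  ∃ x y : List (ZMod N), IsSolution x ∧ IsSolution y ∧ 3 ≤ x.length ∧ 3 ≤ y.length ∧
    Equivalent l (oplus x y)

/-- Irreducible solutions of `(E_N)` (of size at least three). -/
def IsIrreducibleSolution {N : ℕ} (l : List (ZMod N)) : Prop :=
  IsSolution l ∧ 3 ≤ l.length ∧ ¬ IsReducible l

section aux

variable {R S : Type*} [CommRing R] [CommRing S]

lemma M_append (l l' : List R) : M (l ++ l') = M l' * M l := by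
  induction l with
  | nil => simp [M]
  | cons a l ih => simp [M, ih, mul_assoc]

lemma elemMat_map (f : R →+* S) (a : R) : (elemMat a).map f = elemMat (f a) := by
  ext i j
  fin_cases i <;> fin_cases j <;> simp [elemMat]

lemma M_map (f : R →+* S) (l : List R) : (M l).map f = M (l.map f) := by
  induction l with
  | nil => simp [M]
  | cons a l ih =>
    simp only [M, List.map_cons, ← ih, ← elemMat_map]
    exact Matrix.map_mul

lemma M_two (l : List R) (h : ∀ a ∈ l, a = 2) :
    M l = !![(l.length : R) + 1, -(l.length : R); (l.length : R), 1 - (l.length : R)] := by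
  induction l with
  | nil =>
    ext i j
    fin_cases i <;> fin_cases j <;> simp [M]
  | cons a l ih =>
    have ha : a = 2 := h a (by simp)
    have := ih (fun b hb => h b (by simp [hb]))
    rw [M, this, ha]
    ext i j
    fin_cases i <;> fin_cases j <;> simp [elemMat, Matrix.mul_apply, Fin.sum_univ_two] <;> ring

end aux

/-- The symmetric relation saying that `{a, b} = {u, v}` (as ordered alternatives). -/
def Alt {R : Type*} (u v a b : R) : Prop := (a = u ∧ b = v) ∨ (a = v ∧ b = u)

/-- Alternating lists of 3's and 2's modulo 5: six consecutive letters multiply to `1`. -/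
lemma M_six (a b c d e f : ZMod 5) (t : List (ZMod 5))
    (h1 : Alt 3 2 a b) (h2 : Alt 3 2 b c) (h3 : Alt 3 2 c d) (h4 : Alt 3 2 d e)
    (h5 : Alt 3 2 e f) : M (a :: b :: c :: d :: e :: f :: t) = M t := by
  have key : elemMat f * elemMat e * elemMat d * elemMat c * elemMat b * elemMat a = 1 := by
    rcases h1 with ⟨rfl, rfl⟩ | ⟨rfl, rfl⟩ <;> rcases h2 with ⟨h, rfl⟩ | ⟨h, rfl⟩ <;>
    rcases h3 with ⟨i, rfl⟩ | ⟨i, rfl⟩ <;> rcases h4 with ⟨j, rfl⟩ | ⟨j, rfl⟩ <;>
    rcases h5 with ⟨k, rfl⟩ | ⟨k, rfl⟩ <;> revert h i j k <;> unfold elemMat <;> decide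
  simp only [M]
  have : M t * elemMat f * elemMat e * elemMat d * elemMat c * elemMat b * elemMat a
      = M t * (elemMat f * elemMat e * elemMat d * elemMat c * elemMat b * elemMat a) := by
    simp only [mul_assoc]
  rw [this, key, mul_one]

/-- The upper left entry of the matrix of an alternating list of 3's and 2's modulo 5. -/
lemma M_five (n : ℕ) : ∀ l : List (ZMod 5), l.length = n → (∀ a ∈ l, a = 3 ∨ a = 2) →
    l.IsChain (Alt 3 2) →
    (M l 0 0 = 1 → n % 6 = 0) ∧ (M l 0 0 = -1 → n % 6 = 4) ∧ (n % 6 = 0 → M l = 1) := by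
  induction n using Nat.strong_induction_on with
  | _ n ih =>
    intro l hl hv hc
    match l, hl, hv, hc with
    | [], hl, hv, hc =>
      simp only [List.length_nil] at hl
      subst hl
      refine ⟨fun _ => rfl, fun h => ?_, fun _ => rfl⟩
      exfalso
      revert h
      simp only [M]
      decide
    | [a], hl, hv, hc =>
      simp only [List.length_cons, List.length_nil] at hl
      subst hl
      have ha := hv a (by simp)
      rcases ha with rfl | rfl <;> simp only [M] <;> unfold elemMat <;> decide
    | [a, b], hl, hv, hc =>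
      simp only [List.length_cons, List.length_nil] at hl
      subst hl
      simp only [List.isChain_cons_cons, List.isChain_singleton, and_true] at hc
      rcases hc with ⟨rfl, rfl⟩ | ⟨rfl, rfl⟩ <;> simp only [M] <;> unfold elemMat <;> decide
    | [a, b, c], hl, hv, hc =>
      simp only [List.length_cons, List.length_nil] at hl
      subst hl
      simp only [List.isChain_cons_cons, List.isChain_singleton, and_true] at hc
      obtain ⟨h1, h2⟩ := hc
      rcases h1 with ⟨rfl, rfl⟩ | ⟨rfl, rfl⟩ <;> rcases h2 with ⟨h, rfl⟩ | ⟨h, rfl⟩ <;>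
      revert h <;> simp only [M] <;> unfold elemMat <;> decide
    | [a, b, c, d], hl, hv, hc =>
      simp only [List.length_cons, List.length_nil] at hl
      subst hl
      simp only [List.isChain_cons_cons, List.isChain_singleton, and_true] at hc
      obtain ⟨h1, h2, h3⟩ := hc
      rcases h1 with ⟨rfl, rfl⟩ | ⟨rfl, rfl⟩ <;> rcases h2 with ⟨h, rfl⟩ | ⟨h, rfl⟩ <;>
      rcases h3 with ⟨i, rfl⟩ | ⟨i, rfl⟩ <;>
      revert h i <;> simp only [M] <;> unfold elemMat <;> decide
    | [a, b, c, d, e], hl, hv, hc =>
      simp only [List.length_cons, List.length_nil] at hl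
      subst hl
      simp only [List.isChain_cons_cons, List.isChain_singleton, and_true] at hc
      obtain ⟨h1, h2, h3, h4⟩ := hc
      rcases h1 with ⟨rfl, rfl⟩ | ⟨rfl, rfl⟩ <;> rcases h2 with ⟨h, rfl⟩ | ⟨h, rfl⟩ <;>
      rcases h3 with ⟨i, rfl⟩ | ⟨i, rfl⟩ <;> rcases h4 with ⟨j, rfl⟩ | ⟨j, rfl⟩ <;>
      revert h i j <;> simp only [M] <;> unfold elemMat <;> decide
    | a :: b :: c :: d :: e :: f :: t, hl, hv, hc =>
      simp only [List.length_cons] at hl
      simp only [List.isChain_cons_cons] at hc
      obtain ⟨h1, h2, h3, h4, h5, h6⟩ := hc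
      rw [M_six a b c d e f t h1 h2 h3 h4 h5]
      have := ih t.length (by omega) t rfl (fun x hx => hv x (by simp [hx]))
        (List.IsChain.tail h6)
      have e6 : n % 6 = t.length % 6 := by omega
      rw [e6]
      exact this

/-- The tuple `(m+2, 2, m+2, 2, ...)` of size `2 * k`. -/
def altTuple {R : Type*} (u v : R) : ℕ → List R
  | 0 => []
  | k + 1 => u :: v :: altTuple u v k

lemma altTuple_length {R : Type*} (u v : R) (k : ℕ) : (altTuple u v k).length = 2 * k := by
  induction k with
  | zero => rfl
  | succ k ih => simp [altTuple, ih]; ring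

lemma altTuple_append {R : Type*} (u v : R) (k j : ℕ) :
    altTuple u v k ++ altTuple u v j = altTuple u v (k + j) := by
  induction k with
  | zero => simp [altTuple]
  | succ k ih =>
    have : k + 1 + j = (k + j) + 1 := by ring
    rw [this]
    simp [altTuple, ih]

lemma altTuple_mem {R : Type*} (u v : R) (k : ℕ) : ∀ a ∈ altTuple u v k, a = u ∨ a = v := by
  induction k with
  | zero => simp [altTuple]
  | succ k ih =>
    intro a ha
    simp only [altTuple, List.mem_cons] at ha
    rcases ha with h | h | h
    · exact Or.inl h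
    · exact Or.inr h
    · exact ih a h

lemma altTuple_chain {R : Type*} (u v : R) (k : ℕ) : (altTuple u v k).IsChain (Alt u v) := by
  induction k with
  | zero => simp [altTuple]
  | succ k ih =>
    cases k with
    | zero => simp [altTuple, Alt]
    | succ k =>
      simp only [altTuple] at ih ⊢
      rw [List.isChain_cons_cons, List.isChain_cons_cons]
      exact ⟨Or.inl ⟨rfl, rfl⟩, Or.inr ⟨rfl, rfl⟩, ih⟩

lemma alt_symm {R : Type*} (u v a b : R) (h : Alt u v a b) : Alt u v b a := by
  rcases h with ⟨h1, h2⟩ | ⟨h1, h2⟩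
  · exact Or.inr ⟨h2, h1⟩
  · exact Or.inl ⟨h2, h1⟩

/-- A block of something equivalent to an alternating tuple is an alternating list. -/
lemma chain_of_equivalent {N : ℕ} (u v : ZMod N) (k : ℕ) (l s : List (ZMod N))
    (h : Equivalent (altTuple u v k) l) (hs : s <:+: l) :
    (∀ a ∈ s, a = u ∨ a = v) ∧ s.IsChain (Alt u v) := by
  have key : ∀ w : List (ZMod N), (∀ a ∈ w, a = u ∨ a = v) → (w ++ w).IsChain (Alt u v) →
      List.IsRotated w l → (∀ a ∈ s, a = u ∨ a = v) ∧ s.IsChain (Alt u v) := by
    intro w hw hc hr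
    refine ⟨fun a ha => hw a ?_, ?_⟩
    · exact hr.mem_iff.2 (hs.subset ha)
    · obtain ⟨n, hn, rfl⟩ := List.isRotated_iff_mod.1 hr
      have : w.rotate n <:+: w ++ w := by
        rw [List.rotate_eq_drop_append_take hn]
        refine ⟨w.take n, w.drop n, ?_⟩
        rw [← List.append_assoc, List.take_append_drop, List.append_assoc,
          List.take_append_drop]
      obtain ⟨p, q, hpq⟩ := hs.trans this
      rw [← hpq] at hc
      exact hc.left_of_append.right_of_append
  rcases h with h | h
  · refine key _ (altTuple_mem u v k) ?_ h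
    rw [altTuple_append]
    exact altTuple_chain u v _
  · refine key _ (fun a ha => altTuple_mem u v k a (by simpa using ha)) ?_ h
    rw [← List.reverse_append, altTuple_append, List.isChain_reverse]
    exact (altTuple_chain u v _).imp (fun a b hab => alt_symm u v a b hab)

/-- A solution of size at least three is `b_1, (inner block), b_m`, and the inner block has
continuant (upper left entry) `1` or `-1`. -/
lemma inner_block {N : ℕ} (y : List (ZMod N)) (hy : IsSolution y) (h3 : 3 ≤ y.length) :
    M y.tail.dropLast 0 0 = 1 ∨ M y.tail.dropLast 0 0 = -1 := by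
  obtain ⟨b, ys, c, rfl⟩ : ∃ b ys c, y = b :: (ys ++ [c]) := by
    cases y with
    | nil => simp at h3
    | cons b t =>
      refine ⟨b, t.dropLast, t.getLast (by rintro rfl; simp at h3), ?_⟩
      rw [List.dropLast_append_getLast]
  simp only [List.tail_cons, List.dropLast_concat]
  have e : M (b :: (ys ++ [c])) 1 1 = - M ys 0 0 := by
    simp only [M, M_append, elemMat, Matrix.mul_apply, Fin.sum_univ_two, one_mul]
    simp
  rcases hy.2 with h | h
  · right
    have : M (b :: (ys ++ [c])) 1 1 = 1 := by rw [h]; simp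
    rw [e] at this
    rw [← this]; ring
  · left
    have : M (b :: (ys ++ [c])) 1 1 = -1 := by rw [h]; simp
    rw [e] at this
    exact neg_injective this

lemma zmod_eq_zero (m : ℕ) (hm : 0 < m) (hco : Nat.Coprime 5 m) (z : ZMod (5 * m))
    (h5 : ZMod.castHom (Dvd.intro m rfl : 5 ∣ 5 * m) (ZMod 5) z = 0)
    (h6 : ZMod.castHom (Dvd.intro_left 5 rfl : m ∣ 5 * m) (ZMod m) z = 0) : z = 0 := by
  have : NeZero (5 * m) := ⟨by omega⟩
  have hz : z = ((z.val : ℕ) : ZMod (5 * m)) := (ZMod.natCast_zmod_val z).symm
  rw [hz, map_natCast, ZMod.natCast_eq_zero_iff] at h5 h6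
  rw [hz, ZMod.natCast_eq_zero_iff]
  exact hco.mul_dvd_of_dvd_of_dvd h5 h6

/-- For every positive integer `K` there are `N ≥ 2` and an irreducible solution of `(E_N)` of size
at least `N + K`. -/
theorem result : ∀ K : ℕ, 0 < K →
    ∃ N : ℕ, 2 ≤ N ∧ ∃ l : List (ZMod N), IsIrreducibleSolution l ∧ N + K ≤ l.length := by
  intro K hK
  set m : ℕ := 30 * K + 1 with hm
  have hm0 : 0 < m := by omega
  have hco : Nat.Coprime 5 m := by
    rw [hm]
    have : 30 * K + 1 = 1 + 5 * (6 * K) := by ring
    rw [this]
    simp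
  set f5 := ZMod.castHom (Dvd.intro m rfl : 5 ∣ 5 * m) (ZMod 5) with hf5
  set fm := ZMod.castHom (Dvd.intro_left 5 rfl : m ∣ 5 * m) (ZMod m) with hfm
  have h5u : f5 ((m : ZMod (5 * m)) + 2) = 3 := by
    have e : ((m : ℕ) : ZMod 5) = 1 := by
      rw [hm]
      push_cast
      have : (30 : ZMod 5) = 0 := by decide
      rw [this]; ring
    rw [map_add, map_natCast, e, map_ofNat]
    decide
  have h5v : f5 (2 : ZMod (5 * m)) = 2 := map_ofNat f5 2
  have hmu : fm ((m : ZMod (5 * m)) + 2) = 2 := by
    rw [map_add, map_natCast, map_ofNat, ZMod.natCast_self, zero_add]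
  have hmv : fm (2 : ZMod (5 * m)) = 2 := map_ofNat fm 2
  -- the matrix of an alternating list modulo `m` and modulo `5`
  have modm : ∀ s : List (ZMod (5 * m)), (∀ a ∈ s, a = (m : ZMod (5 * m)) + 2 ∨ a = 2) →
      (M s).map fm = !![(s.length : ZMod m) + 1, -(s.length : ZMod m);
        (s.length : ZMod m), 1 - (s.length : ZMod m)] := by
    intro s hs
    rw [M_map, M_two, List.length_map]
    intro a ha
    obtain ⟨b, hb, rfl⟩ := List.mem_map.1 ha
    rcases hs b hb with rfl | rfl
    · exact hmu
    · exact hmv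
  have mod5 : ∀ s : List (ZMod (5 * m)), (∀ a ∈ s, a = (m : ZMod (5 * m)) + 2 ∨ a = 2) →
      s.IsChain (Alt ((m : ZMod (5 * m)) + 2) 2) →
      ((M s).map f5 0 0 = 1 → s.length % 6 = 0) ∧ ((M s).map f5 0 0 = -1 → s.length % 6 = 4) ∧
        (s.length % 6 = 0 → (M s).map f5 = 1) := by
    intro s hs hc
    rw [M_map]
    refine M_five s.length (s.map f5) (List.length_map _) ?_ ?_
    · intro a ha
      obtain ⟨b, hb, rfl⟩ := List.mem_map.1 ha
      rcases hs b hb with rfl | rfl
      · exact Or.inl h5u
      · exact Or.inr h5v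
    · rw [List.isChain_map]
      refine hc.imp ?_
      intro a b hab
      rcases hab with ⟨rfl, rfl⟩ | ⟨rfl, rfl⟩
      · exact Or.inl ⟨h5u, h5v⟩
      · exact Or.inr ⟨h5v, h5u⟩
  refine ⟨5 * m, by omega, altTuple ((m : ZMod (5 * m)) + 2) 2 (3 * m), ⟨⟨?_, ?_⟩, ?_, ?_⟩, ?_⟩
  · rw [altTuple_length]; omega
  · left
    have e5 := (mod5 _ (altTuple_mem _ _ (3 * m)) (altTuple_chain _ _ (3 * m))).2.2
      (by rw [altTuple_length]; omega)
    have em := modm _ (altTuple_mem _ _ (3 * m))
    have hlen : (((altTuple ((m : ZMod (5 * m)) + 2) 2 (3 * m)).length : ℕ) : ZMod m) = 0 := by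
      rw [altTuple_length]
      push_cast
      rw [ZMod.natCast_self]
      ring
    rw [hlen] at em
    ext i j
    rw [← sub_eq_zero]
    apply zmod_eq_zero m hm0 hco
    · have := congrFun (congrFun e5 i) j
      simp only [Matrix.map_apply] at this
      rw [map_sub, this]
      fin_cases i <;> fin_cases j <;> simp
    · have := congrFun (congrFun em i) j
      simp only [Matrix.map_apply] at this
      rw [map_sub, this]
      fin_cases i <;> fin_cases j <;> simp
  · rw [altTuple_length]; omega
  · rintro ⟨x, y, hx, hy, hx3, hy3, heq⟩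
    have hlen : (oplus x y).length = 6 * m := by
      have : (oplus x y).length = (altTuple ((m : ZMod (5 * m)) + 2) 2 (3 * m)).length := by
        rcases heq with h | h
        · exact h.perm.length_eq.symm
        · rw [← h.perm.length_eq, List.length_reverse]
      rw [this, altTuple_length]; ring
    have hlen2 : (oplus x y).length = (x.length - 2) + (y.length - 2) + 2 := by
      simp only [oplus, List.length_cons, List.length_append, List.length_dropLast,
        List.length_tail]
      omega
    have hsl : y.tail.dropLast.length = y.length - 2 := by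
      simp only [List.length_dropLast, List.length_tail]
      omega
    have hinf : y.tail.dropLast <:+: oplus x y := by
      refine ⟨(x.headD 0 + y.getLastD 0) :: (x.tail.dropLast ++ [x.getLastD 0 + y.headD 0]), [], ?_⟩
      simp [oplus]
    obtain ⟨hv, hc⟩ := chain_of_equivalent _ _ (3 * m) _ _ heq hinf
    obtain ⟨h5a, h5b, -⟩ := mod5 _ hv hc
    have hm2 := congrFun (congrFun (modm _ hv) 0) 0
    simp only [Matrix.map_apply, Matrix.of_apply, Matrix.cons_val', Matrix.cons_val_zero] at hm2
    simp only [Matrix.map_apply] at h5a h5b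
    rcases inner_block y hy hy3 with h | h
    · have a1 := h5a (by rw [h, map_one])
      rw [h, map_one] at hm2
      have a2 : ((y.tail.dropLast.length : ℕ) : ZMod m) = 0 := by
        have := hm2
        linear_combination -this
      rw [ZMod.natCast_eq_zero_iff] at a2
      obtain ⟨k, hk⟩ := a2
      have : (m * k) % 6 = 0 := by rw [← hk]; exact a1
      have hk6 : k % 6 = 0 := by
        have : (m * k) % 6 = (m % 6) * (k % 6) % 6 := Nat.mul_mod _ _ _
        have hm6 : m % 6 = 1 := by omega
        rw [hm6] at this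
        omega
      obtain ⟨j, rfl⟩ : ∃ j, k = 6 * j := ⟨k / 6, by omega⟩
      have hj : j = 0 := by
        by_contra hj
        have : m * (6 * j) ≥ m * 6 := Nat.mul_le_mul_left _ (by omega)
        omega
      subst hj
      omega
    · have a1 := h5b (by rw [h, map_neg, map_one])
      rw [h, map_neg, map_one] at hm2
      have a2 : ((y.tail.dropLast.length + 2 : ℕ) : ZMod m) = 0 := by
        push_cast
        linear_combination -hm2
      rw [ZMod.natCast_eq_zero_iff] at a2
      obtain ⟨k, hk⟩ := a2
      have : (m * k) % 6 = 0 := by rw [← hk]; omega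
      have hk6 : k % 6 = 0 := by
        have : (m * k) % 6 = (m % 6) * (k % 6) % 6 := Nat.mul_mod _ _ _
        have hm6 : m % 6 = 1 := by omega
        rw [hm6] at this
        omega
      obtain ⟨j, rfl⟩ : ∃ j, k = 6 * j := ⟨k / 6, by omega⟩
      have hj : j = 0 := by
        by_contra hj
        have : m * (6 * j) ≥ m * 6 := Nat.mul_le_mul_left _ (by omega)
        omega
      subst hj
      omega
  · rw [altTuple_length]; omega

end Pool.Agent.Results.MP_8835a9_co.UnboundedExcess
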